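import Mathlib
import Pool.Agent.K4H38.ClarkE
set_option autoImplicit false
open scoped ENNReal InnerProductSpace
open Pool.Agent.Helper872.Sch Pool.Agent.K4H38.Clark

namespace Pool.Agent.Results.MP_5deb6a_an.ClarksonTupleLower

universe u

/-- Question Q1 in full: for `p ≥ 2` the inequality `L ≤ R` holds for all `n`-tuples. -/
theorem result {H : Type u} [NormedAddCommGroup H] [InnerProductSpace ℂ H] [CompleteSpace H]
    (n : ℕ) (hn : 2 ≤ n) (p q : ℝ) (hp : 2 ≤ p) (hpq : 1 / p + 1 / q = 1)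
    (A : Fin n → H →L[ℂ] H) (hA : ∀ j, InSp p (A j)) :
    (n : ℝ) * (∑ j, snorm p (A j) ^ p) ^ (q / p)
      ≤ snorm p (∑ j, A j) ^ q + ∑ j, ∑ k ∈ Finset.Ioi j, snorm p (A j - A k) ^ q := by
  obtain ⟨h1, h2, h3, h4⟩ := toReal_side n A (by linarith : 1 < p) hpq hA
  rw [h1, h2]
  refine ENNReal.toReal_mono h3 ?_
  exact clark_ge (Tmat n) n (by positivity) (Tmat_orth n) (Tmat_abs n) hp hpq A
    (fun j => (hA j).1)

end Pool.Agent.Results.MP_5deb6a_an.ClarksonTupleLower
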